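import Pool.Agent.MWKP.Stmts

/-!
# Row TGN of block MWKP (MP_23468a_al): from word bits to exchanges, type F
-/

set_option autoImplicit false

namespace Pool.Agent.MWKP.H89

open Pool.Agent.Helper14_MV Pool.Agent.Helper2_MV Pool.Agent.MWK Pool.Agent.MWKP

/-- **TGN** -/
theorem tgn : TgnStmt := by
  intro θ m hW P a b Q h1 h2
  have hw : P ++ a :: b :: Q = (P ++ [a, b]) ++ Q := by simp
  obtain ⟨qs, R, hlen, hQ, hOk, -⟩ := T.seg m (P ++ a :: b :: Q) (P ++ [a, b]) Q [a, b] hw (by
    intro z hz
    rcases List.mem_cons.1 hz with rfl | hz
    · by_cases hzP : z ∈ P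
      · left
        rw [List.count_append]
        have := List.count_pos_iff.2 hzP
        have h3 : 1 ≤ [z, b].count z := List.count_pos_iff.2 (by simp)
        omega
      · right
        exact ⟨by simp, h1.resolve_left hzP⟩
    · have hzb : z = b := by simpa using hz
      subst hzb
      by_cases hzP : z ∈ P
      · left
        rw [List.count_append]
        have := List.count_pos_iff.2 hzP
        have h3 : 1 ≤ [a, z].count z := List.count_pos_iff.2 (by simp)
        omega
      · right
        exact ⟨by simp, h2.resolve_left hzP⟩)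
  have h3 := hW P [a] [b] qs R hlen (by simpa using hOk)
  rw [hQ]
  simpa using h3

end Pool.Agent.MWKP.H89
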